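import Pool.Agent.helper45.SGC.Spec

/-! Row sy:SPL (MP_069684_lc): the sums over the equations and the split patterns. -/

set_option autoImplicit false

namespace Pool.Agent.SGC

open Finset Pool.Agent.helper38.Neg Pool.Agent.helper55.NT

lemma SPL_z2 : ∀ a b : ZMod 2, a + b = if ¬ (a ≠ 0 ↔ b ≠ 0) then 1 else 0 := by
  decide

lemma SPL_two (a : ZMod 2) : a + a = 0 := by
  revert a
  decide

lemma SPL_swap (t h : ℕ) (z : Fin 3 × Fin h → Fin t)
    (σ : Fin 3 → (Fin h × Fin 2 ≃ Fin (2 * h))) (γ : Sg t) (y : Fin (2 * h) → ZMod 2) :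
    ∑ e, y e * Mv (fun e j => z (j, ((σ j).symm e).1)) γ e =
      ∑ j, ∑ p, (y (σ j (p, 0)) + y (σ j (p, 1))) * γ (z (j, p)) := by
  have h1 : ∑ e, y e * Mv (fun e j => z (j, ((σ j).symm e).1)) γ e =
      ∑ j, ∑ e, y e * γ (z (j, ((σ j).symm e).1)) := by
    rw [Finset.sum_comm]
    refine Finset.sum_congr rfl fun e _ => ?_
    unfold Mv
    rw [Finset.mul_sum]
  rw [h1]
  refine Finset.sum_congr rfl fun j _ => ?_
  rw [← Equiv.sum_comp (σ j), Fintype.sum_prod_type]
  refine Finset.sum_congr rfl fun p _ => ?_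
  rw [Fin.sum_univ_two, Equiv.symm_apply_apply, Equiv.symm_apply_apply, add_mul]

theorem SPL : SPL_stmt := by
  intro t h z σ γ
  constructor
  · have h1 := SPL_swap t h z σ γ (fun _ => 1)
    have h2 : ∑ e, Mv (fun e j => z (j, ((σ j).symm e).1)) γ e =
        ∑ e, (1 : ZMod 2) * Mv (fun e j => z (j, ((σ j).symm e).1)) γ e :=
      Finset.sum_congr rfl fun e _ => (one_mul _).symm
    rw [h2, h1]
    refine Finset.sum_eq_zero fun j _ => Finset.sum_eq_zero fun p _ => ?_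
    rw [SPL_two, zero_mul]
  · intro y
    rw [SPL_swap]
    refine Finset.sum_congr rfl fun j _ => ?_
    unfold pat
    rw [Finset.sum_filter]
    refine Finset.sum_congr rfl fun p _ => ?_
    rw [SPL_z2]
    by_cases hc : (y (σ j (p, 0)) ≠ 0 ↔ y (σ j (p, 1)) ≠ 0)
    · rw [if_neg (not_not.mpr hc), zero_mul, if_neg]
      rw [not_not, Finset.mem_filter, Finset.mem_filter]
      exact ⟨fun h => ⟨mem_univ _, hc.mp h.2⟩, fun h => ⟨mem_univ _, hc.mpr h.2⟩⟩
    · rw [if_pos hc, one_mul, if_pos]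
      rw [Finset.mem_filter, Finset.mem_filter]
      intro h
      exact hc ⟨fun h' => (h.mp ⟨mem_univ _, h'⟩).2, fun h' => (h.mpr ⟨mem_univ _, h'⟩).2⟩

end Pool.Agent.SGC
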